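import Pool.Agent.V11326.Chain

/-!
# Slowly switching monomolecular networks: the support condition does not give evanescence
-/

open MeasureTheory ProbabilityTheory Finset Filter Topology
open scoped ENNReal

namespace Pool.Agent.Results.MP_adc20b_pr.SlowSwitchingNotEvanescent

open Pool.Agent.V11326

/-- A state: species counts and environment. -/
abbrev State (n d : ℕ) : Type := (Fin d → ℕ) × Fin n

/-- A family of `n` reaction networks on `d` species (a reaction is a pair (source, target)) with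
rate constants, and switching rates `q i j`, `i ≠ j`. -/
structure Model (n d : ℕ) where
  reac : Fin n → Finset ((Fin d → ℕ) × (Fin d → ℕ))
  c : Fin n → (Fin d → ℕ) × (Fin d → ℕ) → ℝ
  q : Fin n → Fin n → ℝ

namespace Model

variable {n d : ℕ} (M : Model n d)

/-- At-most-monomolecular networks with positive rate constants, and an irreducible switching
chain. -/
structure Valid : Prop where
  mono : ∀ i, ∀ r ∈ M.reac i, r.1 = 0 ∨ ∃ l, r.1 = Pi.single l 1
  c_pos : ∀ i, ∀ r ∈ M.reac i, 0 < M.c i r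
  q_nonneg : ∀ i j, i ≠ j → 0 ≤ M.q i j
  q_irred : ∀ i j, Relation.ReflTransGen (fun a b => a ≠ b ∧ 0 < M.q a b) i j

/-- Mass-action rate of the reaction `r` in environment `i` at the species count `x`. -/
noncomputable def rate (i : Fin n) (r : (Fin d → ℕ) × (Fin d → ℕ)) (x : Fin d → ℕ) : ℝ :=
  M.c i r * ∏ m, ∏ j ∈ Finset.range (r.1 m), ((x m : ℝ) - j)

/-- `A` is the matrix `M_i`: the drift of species `m` in environment `i` is `(A x)_m + o(‖x‖₁)`. -/
def IsDriftMatrix (i : Fin n) (A : Matrix (Fin d) (Fin d) ℝ) : Prop :=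
  ∀ m, ∀ ε : ℝ, 0 < ε → ∃ K : ℕ, ∀ x : Fin d → ℕ, K ≤ ∑ l, x l →
    |(∑ r ∈ M.reac i, M.rate i r x * ((r.2 m : ℝ) - r.1 m)) - A.mulVec (fun l => (x l : ℝ)) m|
      ≤ ε * ((∑ l, x l : ℕ) : ℝ)

/-- The jump measure of the mixed process at the state `z`: the sum of the rates of the
possible jumps, each at its target. -/
noncomputable def flow (κ : ℝ) (z : State n d) : Measure (State n d) :=
  (∑ r ∈ M.reac z.2, ENNReal.ofReal (M.rate z.2 r z.1) •
      Measure.dirac ((fun m => z.1 m + r.2 m - r.1 m, z.2) : State n d))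
    + ∑ j ∈ Finset.univ.erase z.2, ENNReal.ofReal (κ * M.q z.2 j) •
      Measure.dirac ((z.1, j) : State n d)

/-- Total jump rate. -/
noncomputable def totalRate (κ : ℝ) (z : State n d) : ℝ := (M.flow κ z Set.univ).toReal

/-- Transition kernel of the embedded jump chain (a state with total rate `0` is absorbing). -/
noncomputable def jumpKernel (κ : ℝ) : Kernel (State n d) (State n d) where
  toFun z := if M.flow κ z Set.univ = 0 then Measure.dirac z
    else (M.flow κ z Set.univ)⁻¹ • M.flow κ z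
  measurable' := Measurable.of_discrete

lemma flow_univ_ne_top (κ : ℝ) (z : State n d) : M.flow κ z Set.univ ≠ ⊤ := by
  unfold flow
  simp only [Measure.coe_add, Measure.coe_finsetSum, Pi.add_apply, Finset.sum_apply,
    Measure.smul_apply, measure_univ, smul_eq_mul, mul_one]
  refine ENNReal.add_ne_top.mpr ⟨?_, ?_⟩
  · exact (ENNReal.sum_lt_top.mpr fun _ _ => ENNReal.ofReal_lt_top).ne
  · exact (ENNReal.sum_lt_top.mpr fun _ _ => ENNReal.ofReal_lt_top).ne

instance (κ : ℝ) : IsMarkovKernel (M.jumpKernel κ) := by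
  refine ⟨fun z => ?_⟩
  show IsProbabilityMeasure (if M.flow κ z Set.univ = 0 then Measure.dirac z
    else (M.flow κ z Set.univ)⁻¹ • M.flow κ z)
  split_ifs with h
  · infer_instance
  · refine ⟨?_⟩
    rw [Measure.smul_apply, smul_eq_mul]
    exact ENNReal.inv_mul_cancel h (M.flow_univ_ne_top κ z)

end Model

instance : IsProbabilityMeasure (expMeasure 1) := isProbabilityMeasure_expMeasure one_pos

namespace Model

variable {n d : ℕ} (M : Model n d)

/-- The law of (jump chain started from `z`, i.i.d. rate one exponential variables). -/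
noncomputable def pathLaw (κ : ℝ) (z : State n d) : Measure ((ℕ → State n d) × (ℕ → ℝ)) :=
  (chainLaw (M.jumpKernel κ) z).prod (Measure.infinitePi fun _ : ℕ => expMeasure 1)

/-- The time of the `k`-th jump: the holding time in the `l`-th visited state is the `l`-th
exponential variable divided by the total rate there. -/
noncomputable def jumpTime (κ : ℝ) (ω : (ℕ → State n d) × (ℕ → ℝ)) (k : ℕ) : ℝ :=
  ∑ l ∈ Finset.range k, ω.2 l / M.totalRate κ (ω.1 l)

/-- `‖X(t)‖₁ → ∞` as `t → ∞`, where `X(t)` is the species count of the mixed process, that is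
of the `k`-th visited state if `t` lies between the `k`-th and the `(k+1)`-st jump times. -/
def Escapes (κ : ℝ) (ω : (ℕ → State n d) × (ℕ → ℝ)) : Prop :=
  ∀ K : ℕ, ∃ T : ℝ, ∀ t : ℝ, T ≤ t → ∃ k, M.jumpTime κ ω k ≤ t ∧ t < M.jumpTime κ ω (k + 1) ∧
    K ≤ ∑ l, (ω.1 k).1 l

/-- The state `z` is evanescent for the mixed process with parameter `κ`. -/
def Evanescent (κ : ℝ) (z : State n d) : Prop := 0 < M.pathLaw κ z {ω | M.Escapes κ ω}

/-- The mixed process is irreducible. -/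
def Irreducible (κ : ℝ) : Prop :=
  ∀ z z' : State n d, Relation.ReflTransGen (fun a b => M.flow κ a {b} ≠ 0) z z'

/-- A general criterion: a nonnegative function with nonpositive drift off a set that is
eventually left by diverging paths. -/
theorem not_evanescent (κ : ℝ) (hpos : ∀ z, 0 < M.totalRate κ z) (φ : State n d → ℝ)
    (F : Set (State n d))
    (hdrift : ∀ z, z ∉ F → ∫⁻ w, ENNReal.ofReal (φ w) ∂M.flow κ z
      ≤ ENNReal.ofReal (φ z) * M.flow κ z Set.univ)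
    (hFb : ∃ K : ℕ, ∀ z ∈ F, ∑ l, z.1 l ≤ K)
    (hprop : ∀ R : ℝ, ∃ K : ℕ, ∀ z : State n d, K ≤ ∑ l, z.1 l → R ≤ φ z) (z : State n d) :
    ¬ M.Evanescent κ z := by
  have hjump : ∀ z, z ∉ F → ∫⁻ w, ENNReal.ofReal (φ w) ∂M.jumpKernel κ z
      ≤ ENNReal.ofReal (φ z) := by
    intro z hz
    have hne : M.flow κ z Set.univ ≠ 0 := by
      intro h
      have := hpos z
      unfold totalRate at this
      rw [h] at this
      simp at this
    have hk : M.jumpKernel κ z = (M.flow κ z Set.univ)⁻¹ • M.flow κ z := by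
      show (if M.flow κ z Set.univ = 0 then Measure.dirac z
        else (M.flow κ z Set.univ)⁻¹ • M.flow κ z) = _
      rw [if_neg hne]
    rw [hk, lintegral_smul_measure, smul_eq_mul]
    calc (M.flow κ z Set.univ)⁻¹ * ∫⁻ w, ENNReal.ofReal (φ w) ∂M.flow κ z
        ≤ (M.flow κ z Set.univ)⁻¹ * (ENNReal.ofReal (φ z) * M.flow κ z Set.univ) := by
          gcongr; exact hdrift z hz
      _ = ENNReal.ofReal (φ z) := by
          rw [mul_comm, mul_assoc, ENNReal.mul_inv_cancel hne (M.flow_univ_ne_top κ z), mul_one]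
  -- the jump chain does not diverge
  have hchain : ∀ᵐ x ∂chainLaw (M.jumpKernel κ) z,
      ¬ ∀ K : ℕ, ∃ N : ℕ, ∀ k, N ≤ k → K ≤ ∑ l, (x k).1 l := by
    have h := ae_all_iff.mpr fun m => escape_null (M.jumpKernel κ) z
      (fun w => ENNReal.ofReal (φ w)) Measurable.of_discrete (fun _ => ENNReal.ofReal_ne_top)
      F (DiscreteMeasurableSpace.forall_measurableSet F) hjump m
    filter_upwards [h] with x hx hdiv
    obtain ⟨K0, hK0⟩ := hFb
    obtain ⟨m, hm⟩ := hdiv (K0 + 1)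
    refine hx m ⟨fun k hk hkF => ?_, ?_⟩
    · have h1 := hm k hk
      have h2 := hK0 _ hkF
      omega
    · rw [ENNReal.tendsto_nhds_top_iff_nnreal]
      intro R
      obtain ⟨K, hK⟩ := hprop ((R : ℝ) + 1)
      obtain ⟨N, hN⟩ := hdiv K
      filter_upwards [eventually_ge_atTop N] with k hk
      have h3 := hK _ (hN k hk)
      rw [ENNReal.coe_nnreal_eq]
      exact (ENNReal.ofReal_lt_ofReal_iff (by linarith [R.2])).mpr (by linarith)
  -- the exponential variables are positive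
  have hexp : ∀ᵐ e ∂(Measure.infinitePi fun _ : ℕ => expMeasure 1), ∀ k, 0 < e k := by
    rw [ae_all_iff]
    intro k
    have hmap := Measure.infinitePi_map_eval (μ := fun _ : ℕ => expMeasure 1) k
    have h0 : ∀ᵐ r ∂(expMeasure 1), 0 < r := by
      rw [ae_iff]
      have hset : {r : ℝ | ¬ 0 < r} = Set.Iic 0 := by ext r; simp
      rw [hset]
      have hcdf := cdf_expMeasure_eq (r := 1) one_pos 0
      rw [cdf_eq_real] at hcdf
      simp only [le_refl, if_true, mul_zero, neg_zero, Real.exp_zero, sub_self] at hcdf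
      rw [measureReal_eq_zero_iff] at hcdf
      exact hcdf
    rw [← hmap] at h0
    exact ae_of_ae_map (measurable_pi_apply k).aemeasurable h0
  have hprod : ∀ᵐ ω ∂M.pathLaw κ z,
      (¬ ∀ K : ℕ, ∃ N : ℕ, ∀ k, N ≤ k → K ≤ ∑ l, (ω.1 k).1 l) ∧ ∀ k, 0 < ω.2 k := by
    have h1 : ∀ᵐ ω ∂M.pathLaw κ z, ¬ ∀ K : ℕ, ∃ N : ℕ, ∀ k, N ≤ k → K ≤ ∑ l, (ω.1 k).1 l :=
      Measure.quasiMeasurePreserving_fst.ae hchain
    have h2 : ∀ᵐ ω ∂M.pathLaw κ z, ∀ k, 0 < ω.2 k :=
      Measure.quasiMeasurePreserving_snd.ae hexp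
    filter_upwards [h1, h2] with ω a b using ⟨a, b⟩
  unfold Evanescent
  rw [not_lt]
  apply le_of_eq
  have hsub : ∀ᵐ ω ∂M.pathLaw κ z, ¬ M.Escapes κ ω := by
    filter_upwards [hprod] with ω hω hesc
    obtain ⟨hnd, hpos'⟩ := hω
    apply hnd
    have hstep : ∀ k, M.jumpTime κ ω k < M.jumpTime κ ω (k + 1) := by
      intro k
      unfold jumpTime
      rw [Finset.sum_range_succ]
      have := div_pos (hpos' k) (hpos (ω.1 k))
      linarith
    have hmono : StrictMono (M.jumpTime κ ω) := strictMono_nat_of_lt_succ hstep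
    intro K
    obtain ⟨T, hT⟩ := hesc K
    obtain ⟨N, -, hN, -⟩ := hT T le_rfl
    refine ⟨N + 1, fun k hk => ?_⟩
    have h1 : T ≤ M.jumpTime κ ω k := hN.le.trans (hmono.monotone hk)
    obtain ⟨j, hj1, hj2, hj3⟩ := hT _ h1
    have h2 : j ≤ k := hmono.le_iff_le.mp hj1
    have h3 : k < j + 1 := hmono.lt_iff_lt.mp hj2
    have h4 : j = k := by omega
    rw [h4] at hj3
    exact hj3
  rw [ae_iff] at hsub
  simpa using hsub

/-- The generator applied to `φ` at `z`. -/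
noncomputable def gen (κ : ℝ) (φ : State n d → ℝ) (z : State n d) : ℝ :=
  (∑ r ∈ M.reac z.2, M.rate z.2 r z.1 * (φ (fun m => z.1 m + r.2 m - r.1 m, z.2) - φ z))
    + ∑ j ∈ Finset.univ.erase z.2, κ * M.q z.2 j * (φ (z.1, j) - φ z)

lemma drift_of_gen (κ : ℝ) (φ : State n d → ℝ) (hφ0 : ∀ z, 0 ≤ φ z) (z : State n d)
    (hrate : ∀ r ∈ M.reac z.2, 0 ≤ M.rate z.2 r z.1)
    (hq : ∀ j ∈ Finset.univ.erase z.2, 0 ≤ κ * M.q z.2 j) (hgen : M.gen κ φ z ≤ 0) :
    ∫⁻ w, ENNReal.ofReal (φ w) ∂M.flow κ z ≤ ENNReal.ofReal (φ z) * M.flow κ z Set.univ := by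
  have h1 : ∫⁻ w, ENNReal.ofReal (φ w) ∂M.flow κ z
      = ENNReal.ofReal ((∑ r ∈ M.reac z.2, M.rate z.2 r z.1 *
          φ (fun m => z.1 m + r.2 m - r.1 m, z.2))
        + ∑ j ∈ Finset.univ.erase z.2, κ * M.q z.2 j * φ (z.1, j)) := by
    unfold flow
    rw [lintegral_add_measure, lintegral_finsetSum_measure, lintegral_finsetSum_measure,
      ENNReal.ofReal_add (Finset.sum_nonneg fun r hr => mul_nonneg (hrate r hr) (hφ0 _))
        (Finset.sum_nonneg fun j hj => mul_nonneg (hq j hj) (hφ0 _)),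
      ENNReal.ofReal_sum_of_nonneg fun r hr => mul_nonneg (hrate r hr) (hφ0 _),
      ENNReal.ofReal_sum_of_nonneg fun j hj => mul_nonneg (hq j hj) (hφ0 _)]
    congr 1
    · refine Finset.sum_congr rfl fun r hr => ?_
      rw [lintegral_smul_measure, lintegral_dirac, smul_eq_mul, ENNReal.ofReal_mul (hrate r hr)]
    · refine Finset.sum_congr rfl fun j hj => ?_
      rw [lintegral_smul_measure, lintegral_dirac, smul_eq_mul, ENNReal.ofReal_mul (hq j hj)]
  have h2 : M.flow κ z Set.univ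
      = ENNReal.ofReal ((∑ r ∈ M.reac z.2, M.rate z.2 r z.1)
        + ∑ j ∈ Finset.univ.erase z.2, κ * M.q z.2 j) := by
    unfold flow
    simp only [Measure.coe_add, Measure.coe_finsetSum, Pi.add_apply, Finset.sum_apply,
      Measure.smul_apply, measure_univ, smul_eq_mul, mul_one]
    rw [ENNReal.ofReal_add (Finset.sum_nonneg fun r hr => hrate r hr)
        (Finset.sum_nonneg fun j hj => hq j hj),
      ENNReal.ofReal_sum_of_nonneg fun r hr => hrate r hr,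
      ENNReal.ofReal_sum_of_nonneg fun j hj => hq j hj]
  rw [h1, h2, ← ENNReal.ofReal_mul (hφ0 z)]
  apply ENNReal.ofReal_le_ofReal
  have h3 : M.gen κ φ z = ((∑ r ∈ M.reac z.2, M.rate z.2 r z.1 *
          φ (fun m => z.1 m + r.2 m - r.1 m, z.2))
        + ∑ j ∈ Finset.univ.erase z.2, κ * M.q z.2 j * φ (z.1, j))
        - φ z * ((∑ r ∈ M.reac z.2, M.rate z.2 r z.1)
        + ∑ j ∈ Finset.univ.erase z.2, κ * M.q z.2 j) := by
    unfold gen
    simp only [mul_sub, Finset.sum_sub_distrib, ← Finset.sum_mul]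
    ring
  linarith

lemma step_reac (κ : ℝ) (z : State n d) (r : (Fin d → ℕ) × (Fin d → ℕ)) (hr : r ∈ M.reac z.2)
    (hpos : 0 < M.rate z.2 r z.1) (w : State n d)
    (hw : w = (fun m => z.1 m + r.2 m - r.1 m, z.2)) : M.flow κ z {w} ≠ 0 := by
  unfold flow
  intro h
  rw [Measure.coe_add, Pi.add_apply, add_eq_zero] at h
  have h1 := h.1
  rw [Measure.coe_finsetSum, Finset.sum_apply, Finset.sum_eq_zero_iff] at h1
  have h2 := h1 r hr
  rw [Measure.smul_apply, smul_eq_mul, mul_eq_zero] at h2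
  rcases h2 with h2 | h2
  · exact absurd h2 (ENNReal.ofReal_pos.mpr hpos).ne'
  · rw [← hw, Measure.dirac_apply_of_mem (Set.mem_singleton w)] at h2
    exact one_ne_zero h2

lemma step_switch (κ : ℝ) (z : State n d) (j : Fin n) (hj : j ≠ z.2) (hpos : 0 < κ * M.q z.2 j) :
    M.flow κ z {(z.1, j)} ≠ 0 := by
  unfold flow
  intro h
  rw [Measure.coe_add, Pi.add_apply, add_eq_zero] at h
  have h1 := h.2
  rw [Measure.coe_finsetSum, Finset.sum_apply, Finset.sum_eq_zero_iff] at h1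
  have h2 := h1 j (Finset.mem_erase.mpr ⟨hj, Finset.mem_univ _⟩)
  rw [Measure.smul_apply, smul_eq_mul, mul_eq_zero] at h2
  rcases h2 with h2 | h2
  · exact absurd h2 (ENNReal.ofReal_pos.mpr hpos).ne'
  · rw [Measure.dirac_apply_of_mem (Set.mem_singleton _)] at h2
    exact one_ne_zero h2

end Model

/-- reactions of environment `0`: `S₁ → S₂`, `S₂ → 2 S₂`, `S₃ → 0`, `0 → S₁`. -/
def R0 : Finset ((Fin 3 → ℕ) × (Fin 3 → ℕ)) :=
  {(![1, 0, 0], ![0, 1, 0]), (![0, 1, 0], ![0, 2, 0]), (![0, 0, 1], ![0, 0, 0]),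
    (![0, 0, 0], ![1, 0, 0])}

/-- reactions of environment `1`: `S₁ → S₃`, `S₃ → 2 S₃`, `S₂ → 0`, `0 → S₁`. -/
def R1 : Finset ((Fin 3 → ℕ) × (Fin 3 → ℕ)) :=
  {(![1, 0, 0], ![0, 0, 1]), (![0, 0, 1], ![0, 0, 2]), (![0, 1, 0], ![0, 0, 0]),
    (![0, 0, 0], ![1, 0, 0])}

/-- The counterexample: all rate constants are `1`, except that `S₃ → 0` and `S₂ → 0` have
rate constant `4`; the environment switches at rate `κ` in each direction. -/
noncomputable def M0 : Model 2 3 where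
  reac := ![R0, R1]
  c := fun _ r => if r.2 = 0 then 4 else 1
  q := fun _ _ => 1

lemma sumR0 (f : (Fin 3 → ℕ) × (Fin 3 → ℕ) → ℝ) : ∑ r ∈ R0, f r
    = f (![1, 0, 0], ![0, 1, 0]) + (f (![0, 1, 0], ![0, 2, 0]) + (f (![0, 0, 1], ![0, 0, 0])
      + f (![0, 0, 0], ![1, 0, 0]))) := by
  unfold R0
  rw [Finset.sum_insert (by decide), Finset.sum_insert (by decide),
    Finset.sum_insert (by decide), Finset.sum_singleton]

lemma sumR1 (f : (Fin 3 → ℕ) × (Fin 3 → ℕ) → ℝ) : ∑ r ∈ R1, f r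
    = f (![1, 0, 0], ![0, 0, 1]) + (f (![0, 0, 1], ![0, 0, 2]) + (f (![0, 1, 0], ![0, 0, 0])
      + f (![0, 0, 0], ![1, 0, 0]))) := by
  unfold R1
  rw [Finset.sum_insert (by decide), Finset.sum_insert (by decide),
    Finset.sum_insert (by decide), Finset.sum_singleton]

/-- the Lyapunov function -/
noncomputable def phi (p : ℝ) (z : State 2 3) : ℝ :=
  2 * (z.1 0 : ℝ) + (if z.2 = 0 then 1 else 1 / 2) * (z.1 1 : ℝ) ^ p
    + (if z.2 = 0 then 1 / 2 else 1) * (z.1 2 : ℝ) ^ p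

lemma phi_nonneg (p : ℝ) (z : State 2 3) : 0 ≤ phi p z := by
  unfold phi
  have h1 : (0 : ℝ) ≤ (z.1 1 : ℝ) ^ p := Real.rpow_nonneg (by positivity) p
  have h2 : (0 : ℝ) ≤ (z.1 2 : ℝ) ^ p := Real.rpow_nonneg (by positivity) p
  split_ifs <;> positivity

lemma pow_up (p : ℝ) (hp0 : 0 < p) (hp1 : p ≤ 1) (n : ℕ) :
    (n : ℝ) * (((n + 1 : ℕ) : ℝ) ^ p - (n : ℝ) ^ p) ≤ p * (n : ℝ) ^ p := by
  rcases Nat.eq_zero_or_pos n with h | h
  · subst h
    simp [Real.zero_rpow hp0.ne']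
  · have hn : (0 : ℝ) < n := by exact_mod_cast h
    have h1 : ((n + 1 : ℕ) : ℝ) = n * (1 + 1 / n) := by push_cast; field_simp
    have hinv : 0 < 1 / (n : ℝ) := by positivity
    have h2 : (1 + 1 / (n : ℝ)) ^ p ≤ 1 + p * (1 / n) :=
      rpow_one_add_le_one_add_mul_self (by linarith) hp0.le hp1
    rw [h1, Real.mul_rpow hn.le (by positivity)]
    have h3 : 0 ≤ (n : ℝ) * (n : ℝ) ^ p := by positivity
    have h4 := mul_le_mul_of_nonneg_left h2 h3
    have h5 : (n : ℝ) * (n : ℝ) ^ p * (1 + p * (1 / n)) = n * (n : ℝ) ^ p + p * (n : ℝ) ^ p := by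
      field_simp
    linarith

lemma pow_down (p : ℝ) (hp0 : 0 < p) (hp1 : p ≤ 1) (n : ℕ) :
    (n : ℝ) * (((n - 1 : ℕ) : ℝ) ^ p - (n : ℝ) ^ p) ≤ - (p * (n : ℝ) ^ p) := by
  rcases Nat.eq_zero_or_pos n with h | h
  · subst h
    simp [Real.zero_rpow hp0.ne']
  · have hn : (0 : ℝ) < n := by exact_mod_cast h
    have hn1 : (1 : ℝ) ≤ n := by exact_mod_cast h
    have hinv : 1 / (n : ℝ) ≤ 1 := by rw [div_le_one hn]; exact hn1
    have h1 : ((n - 1 : ℕ) : ℝ) = n * (1 + -(1 / n)) := by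
      rw [Nat.cast_sub (by omega)]; push_cast; field_simp; ring
    have h2 : (1 + -(1 / (n : ℝ))) ^ p ≤ 1 + p * (-(1 / n)) :=
      rpow_one_add_le_one_add_mul_self (by linarith) hp0.le hp1
    rw [h1, Real.mul_rpow hn.le (by linarith)]
    have h3 : 0 ≤ (n : ℝ) * (n : ℝ) ^ p := by positivity
    have h4 := mul_le_mul_of_nonneg_left h2 h3
    have h5 : (n : ℝ) * (n : ℝ) ^ p * (1 + p * (-(1 / n)))
        = n * (n : ℝ) ^ p - p * (n : ℝ) ^ p := by
      field_simp; ring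
    linarith

lemma pow_one (p : ℝ) (hp0 : 0 < p) (hp1 : p ≤ 1) (n : ℕ) :
    ((n + 1 : ℕ) : ℝ) ^ p - (n : ℝ) ^ p ≤ 1 := by
  have := Real.rpow_add_le_add_rpow (a := (n : ℝ)) (b := 1) (by positivity) (by norm_num)
    hp0.le hp1
  rw [Real.one_rpow] at this
  push_cast
  linarith

lemma M0_valid : M0.Valid := by
  refine ⟨?_, ?_, fun _ _ _ => by simp [M0], ?_⟩
  · have h0 : ∀ r ∈ R0, r.1 = 0 ∨ ∃ l, r.1 = Pi.single l 1 := by decide
    have h1 : ∀ r ∈ R1, r.1 = 0 ∨ ∃ l, r.1 = Pi.single l 1 := by decide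
    intro i
    fin_cases i
    · exact h0
    · exact h1
  · intro i r _
    simp only [M0]
    split_ifs <;> norm_num
  · intro i j
    by_cases h : i = j
    · rw [h]
    · exact Relation.ReflTransGen.single ⟨h, by simp [M0]⟩

lemma gen_zero (κ p : ℝ) (x : Fin 3 → ℕ) : M0.gen κ (phi p) (x, 0)
    = (x 0 : ℝ) * (-2 + (((x 1 + 1 : ℕ) : ℝ) ^ p - (x 1 : ℝ) ^ p))
      + (x 1 : ℝ) * (((x 1 + 1 : ℕ) : ℝ) ^ p - (x 1 : ℝ) ^ p)
      + 4 * (x 2 : ℝ) * ((1 / 2) * (((x 2 - 1 : ℕ) : ℝ) ^ p - (x 2 : ℝ) ^ p)) + 2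
      + κ * (-(1 / 2) * (x 1 : ℝ) ^ p + (1 / 2) * (x 2 : ℝ) ^ p) := by
  unfold Model.gen
  have e1 : (Finset.univ.erase (0 : Fin 2)) = {1} := by decide
  have er : M0.reac ((x, (0 : Fin 2)) : State 2 3).2 = R0 := rfl
  rw [er, sumR0]
  simp only [e1, Finset.sum_singleton]
  have n1 : (![0, 1, 0] : Fin 3 → ℕ) ≠ 0 := by decide
  have n2 : (![0, 2, 0] : Fin 3 → ℕ) ≠ 0 := by decide
  have n3 : (![0, 0, 0] : Fin 3 → ℕ) = 0 := by decide
  have n4 : (![1, 0, 0] : Fin 3 → ℕ) ≠ 0 := by decide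
  simp only [Model.rate, M0, phi, Fin.prod_univ_three, n1, n2, n3, n4, if_true, if_false]
  simp only [Matrix.cons_val_zero, Matrix.cons_val_one, Matrix.cons_val, Finset.prod_range_one,
    Finset.prod_range_zero, Nat.cast_zero, sub_zero, Pi.zero_apply, mul_one, one_mul, add_zero]
  have hx0 : (x 0 : ℝ) * (((x 0 - 1 : ℕ) : ℝ) - (x 0 : ℝ)) = - (x 0 : ℝ) := by
    rcases Nat.eq_zero_or_pos (x 0) with h | h
    · rw [h]; simp
    · rw [Nat.cast_sub (by omega)]; push_cast; ring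
  have a1 : x 1 + 2 - 1 = x 1 + 1 := by omega
  have a2 : x 0 + 1 - 0 = x 0 + 1 := rfl
  simp only [a1, a2, Nat.sub_zero, one_ne_zero, if_false]
  push_cast
  linear_combination 2 * hx0

lemma gen_one (κ p : ℝ) (x : Fin 3 → ℕ) : M0.gen κ (phi p) (x, 1)
    = (x 0 : ℝ) * (-2 + (((x 2 + 1 : ℕ) : ℝ) ^ p - (x 2 : ℝ) ^ p))
      + (x 2 : ℝ) * (((x 2 + 1 : ℕ) : ℝ) ^ p - (x 2 : ℝ) ^ p)
      + 4 * (x 1 : ℝ) * ((1 / 2) * (((x 1 - 1 : ℕ) : ℝ) ^ p - (x 1 : ℝ) ^ p)) + 2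
      + κ * (-(1 / 2) * (x 2 : ℝ) ^ p + (1 / 2) * (x 1 : ℝ) ^ p) := by
  unfold Model.gen
  have e1 : (Finset.univ.erase (1 : Fin 2)) = {0} := by decide
  have er : M0.reac ((x, (1 : Fin 2)) : State 2 3).2 = R1 := rfl
  rw [er, sumR1]
  simp only [e1, Finset.sum_singleton]
  have n1 : (![0, 0, 1] : Fin 3 → ℕ) ≠ 0 := by decide
  have n2 : (![0, 0, 2] : Fin 3 → ℕ) ≠ 0 := by decide
  have n3 : (![0, 0, 0] : Fin 3 → ℕ) = 0 := by decide
  have n4 : (![1, 0, 0] : Fin 3 → ℕ) ≠ 0 := by decide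
  simp only [Model.rate, M0, phi, Fin.prod_univ_three, n1, n2, n3, n4, if_true, if_false]
  simp only [Matrix.cons_val_zero, Matrix.cons_val_one, Matrix.cons_val, Finset.prod_range_one,
    Finset.prod_range_zero, Nat.cast_zero, sub_zero, Pi.zero_apply, mul_one, one_mul, add_zero]
  have hx0 : (x 0 : ℝ) * (((x 0 - 1 : ℕ) : ℝ) - (x 0 : ℝ)) = - (x 0 : ℝ) := by
    rcases Nat.eq_zero_or_pos (x 0) with h | h
    · rw [h]; simp
    · rw [Nat.cast_sub (by omega)]; push_cast; ring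
  have a1 : x 2 + 2 - 1 = x 2 + 1 := by omega
  simp only [a1, Nat.sub_zero, one_ne_zero, if_false]
  push_cast
  linear_combination 2 * hx0

/-- bound for the generator -/
lemma gen_le (κ : ℝ) (hκ0 : 0 < κ) (hκ1 : κ ≤ 1) (z : State 2 3) :
    M0.gen κ (phi (κ / 3)) z
      ≤ 2 - (z.1 0 : ℝ) - κ / 6 * ((z.1 1 : ℝ) ^ (κ / 3) + (z.1 2 : ℝ) ^ (κ / 3)) := by
  obtain ⟨x, i⟩ := z
  have hp0 : 0 < κ / 3 := by positivity
  have hp1 : κ / 3 ≤ 1 := by linarith
  have h0 : (0 : ℝ) ≤ (x 0 : ℝ) := by positivity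
  fin_cases i
  · show M0.gen κ (phi (κ / 3)) (x, 0) ≤ _
    rw [gen_zero]
    have u1 := pow_up (κ / 3) hp0 hp1 (x 1)
    have u2 := pow_down (κ / 3) hp0 hp1 (x 2)
    have u3 := mul_le_mul_of_nonneg_left (pow_one (κ / 3) hp0 hp1 (x 1)) h0
    simp only
    nlinarith
  · show M0.gen κ (phi (κ / 3)) (x, 1) ≤ _
    rw [gen_one]
    have u1 := pow_up (κ / 3) hp0 hp1 (x 2)
    have u2 := pow_down (κ / 3) hp0 hp1 (x 1)
    have u3 := mul_le_mul_of_nonneg_left (pow_one (κ / 3) hp0 hp1 (x 2)) h0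
    simp only
    nlinarith

lemma norm_pow_le (p : ℝ) (hp0 : 0 < p) (hp1 : p ≤ 1) (x : Fin 3 → ℕ) :
    ((∑ l, x l : ℕ) : ℝ) ^ p ≤ (x 0 : ℝ) + ((x 1 : ℝ) ^ p + (x 2 : ℝ) ^ p) := by
  rw [Fin.sum_univ_three]
  push_cast
  have h1 := Real.rpow_add_le_add_rpow (a := (x 0 : ℝ) + x 1) (b := x 2) (by positivity)
    (by positivity) hp0.le hp1
  have h2 := Real.rpow_add_le_add_rpow (a := (x 0 : ℝ)) (b := x 1) (by positivity)
    (by positivity) hp0.le hp1
  have h3 : (x 0 : ℝ) ^ p ≤ (x 0 : ℝ) := by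
    rcases Nat.eq_zero_or_pos (x 0) with h | h
    · rw [h]; simp [Real.zero_rpow hp0.ne']
    · have : (1 : ℝ) ≤ x 0 := by exact_mod_cast h
      calc (x 0 : ℝ) ^ p ≤ (x 0 : ℝ) ^ (1 : ℝ) := Real.rpow_le_rpow_of_exponent_le this hp1
        _ = x 0 := Real.rpow_one _
  linarith

lemma rate_nonneg (i : Fin 2) (r : (Fin 3 → ℕ) × (Fin 3 → ℕ)) (hr : r ∈ M0.reac i)
    (x : Fin 3 → ℕ) : 0 ≤ M0.rate i r x := by
  unfold Model.rate
  have hc := M0_valid.c_pos i r hr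
  refine mul_nonneg hc.le (Finset.prod_nonneg fun m _ => Finset.prod_nonneg fun j hj => ?_)
  have hle : r.1 m ≤ 1 := by
    rcases M0_valid.mono i r hr with h | ⟨l, h⟩
    · rw [h]; simp
    · rw [h]
      by_cases hm : m = l
      · subst hm; simp
      · simp [Pi.single_eq_of_ne hm]
  rw [Finset.mem_range] at hj
  have : j = 0 := by omega
  subst this
  simp

lemma total_pos (κ : ℝ) (hκ0 : 0 < κ) (z : State 2 3) : 0 < M0.totalRate κ z := by
  obtain ⟨j, hj⟩ : ∃ j : Fin 2, j ≠ z.2 := by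
    have : ∀ i : Fin 2, ∃ j : Fin 2, j ≠ i := by decide
    exact this z.2
  have h := M0.step_switch κ z j hj (by simp [M0, hκ0])
  unfold Model.totalRate
  refine ENNReal.toReal_pos ?_ (M0.flow_univ_ne_top κ z)
  intro h0
  apply h
  exact measure_mono_null (Set.subset_univ _) h0

lemma never_evanescent (κ : ℝ) (hκ0 : 0 < κ) (hκ1 : κ ≤ 1) (z : State 2 3) :
    ¬ M0.Evanescent κ z := by
  have hp0 : 0 < κ / 3 := by positivity
  have hp1 : κ / 3 ≤ 1 := by linarith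
  -- the norm to the power `p` is unbounded
  have hunb : ∀ R : ℝ, ∃ K : ℕ, ∀ x : Fin 3 → ℕ, K ≤ ∑ l, x l →
      R ≤ ((∑ l, x l : ℕ) : ℝ) ^ (κ / 3) := by
    intro R
    have ht : Tendsto (fun k : ℕ => (k : ℝ) ^ (κ / 3)) atTop atTop :=
      (tendsto_rpow_atTop hp0).comp tendsto_natCast_atTop_atTop
    obtain ⟨K, hK⟩ := (ht.eventually (eventually_ge_atTop R)).exists_forall_of_atTop
    exact ⟨K, fun x hx => hK _ hx⟩
  refine M0.not_evanescent κ (total_pos κ hκ0) (phi (κ / 3))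
    {z | (z.1 0 : ℝ) + κ / 6 * ((z.1 1 : ℝ) ^ (κ / 3) + (z.1 2 : ℝ) ^ (κ / 3)) ≤ 2}
    (fun w hw => ?_) ?_ ?_ z
  · refine M0.drift_of_gen κ (phi (κ / 3)) (phi_nonneg _) w (fun r hr => rate_nonneg _ r hr _)
      (fun j _ => by simp [M0]; exact hκ0.le) ?_
    have h1 := gen_le κ hκ0 hκ1 w
    have h2 : ¬ ((w.1 0 : ℝ) + κ / 6 * ((w.1 1 : ℝ) ^ (κ / 3) + (w.1 2 : ℝ) ^ (κ / 3)) ≤ 2) := hw
    push Not at h2
    linarith
  · obtain ⟨K, hK⟩ := hunb (12 / κ + 1)
    refine ⟨K, fun w hw => ?_⟩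
    by_contra hcon
    push Not at hcon
    have h1 := hK w.1 hcon.le
    have h2 := norm_pow_le (κ / 3) hp0 hp1 w.1
    have h3 : (w.1 0 : ℝ) + κ / 6 * ((w.1 1 : ℝ) ^ (κ / 3) + (w.1 2 : ℝ) ^ (κ / 3)) ≤ 2 := hw
    have h4 : κ / 6 * (12 / κ + 1) ≤ κ / 6 * ((w.1 0 : ℝ)
        + ((w.1 1 : ℝ) ^ (κ / 3) + (w.1 2 : ℝ) ^ (κ / 3))) :=
      mul_le_mul_of_nonneg_left (h1.trans h2) (by positivity)
    have h5 : κ / 6 * (12 / κ + 1) = 2 + κ / 6 := by field_simp; norm_num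
    have h6 : κ / 6 * (w.1 0 : ℝ) ≤ (w.1 0 : ℝ) := by
      have : (0 : ℝ) ≤ (w.1 0 : ℝ) := by positivity
      nlinarith
    have h7 : κ / 6 * ((w.1 0 : ℝ)
        + ((w.1 1 : ℝ) ^ (κ / 3) + (w.1 2 : ℝ) ^ (κ / 3)))
        = κ / 6 * (w.1 0 : ℝ) + κ / 6 * ((w.1 1 : ℝ) ^ (κ / 3) + (w.1 2 : ℝ) ^ (κ / 3)) := by ring
    linarith
  · intro R
    obtain ⟨K, hK⟩ := hunb (2 * R)
    refine ⟨K, fun w hw => ?_⟩
    have h1 := hK w.1 hw
    have h2 := norm_pow_le (κ / 3) hp0 hp1 w.1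
    have h3 : (0 : ℝ) ≤ (w.1 1 : ℝ) ^ (κ / 3) := Real.rpow_nonneg (by positivity) _
    have h4 : (0 : ℝ) ≤ (w.1 2 : ℝ) ^ (κ / 3) := Real.rpow_nonneg (by positivity) _
    have h5 : (0 : ℝ) ≤ (w.1 0 : ℝ) := by positivity
    unfold phi
    split_ifs <;> linarith

/-- drift matrices -/
def A0 : Matrix (Fin 3) (Fin 3) ℝ := !![-1, 0, 0; 1, 1, 0; 0, 0, -4]

def A1 : Matrix (Fin 3) (Fin 3) ℝ := !![-1, 0, 0; 0, -4, 0; 1, 0, 1]

lemma rate_simp (i : Fin 2) (r : (Fin 3 → ℕ) × (Fin 3 → ℕ)) (x : Fin 3 → ℕ) :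
    M0.rate i r x = (if r.2 = 0 then 4 else 1) * ((∏ j ∈ Finset.range (r.1 0), ((x 0 : ℝ) - j))
      * (∏ j ∈ Finset.range (r.1 1), ((x 1 : ℝ) - j))
      * (∏ j ∈ Finset.range (r.1 2), ((x 2 : ℝ) - j))) := by
  unfold Model.rate
  rw [Fin.prod_univ_three]
  rfl

lemma drift0 (x : Fin 3 → ℕ) (m : Fin 3) :
    (∑ r ∈ M0.reac 0, M0.rate 0 r x * ((r.2 m : ℝ) - r.1 m))
      - A0.mulVec (fun l => (x l : ℝ)) m = if m = 0 then 1 else 0 := by
  have er : M0.reac 0 = R0 := rfl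
  have n1 : (![0, 1, 0] : Fin 3 → ℕ) ≠ 0 := by decide
  have n2 : (![0, 2, 0] : Fin 3 → ℕ) ≠ 0 := by decide
  have n3 : (![0, 0, 0] : Fin 3 → ℕ) = 0 := by decide
  have n4 : (![1, 0, 0] : Fin 3 → ℕ) ≠ 0 := by decide
  rw [er, sumR0]
  simp only [rate_simp, n1, n2, n3, n4, if_true, if_false]
  fin_cases m <;>
  simp [A0, Matrix.mulVec, dotProduct, Fin.sum_univ_three] <;> ring

lemma drift1 (x : Fin 3 → ℕ) (m : Fin 3) :
    (∑ r ∈ M0.reac 1, M0.rate 1 r x * ((r.2 m : ℝ) - r.1 m))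
      - A1.mulVec (fun l => (x l : ℝ)) m = if m = 0 then 1 else 0 := by
  have er : M0.reac 1 = R1 := rfl
  have n1 : (![0, 0, 1] : Fin 3 → ℕ) ≠ 0 := by decide
  have n2 : (![0, 0, 2] : Fin 3 → ℕ) ≠ 0 := by decide
  have n3 : (![0, 0, 0] : Fin 3 → ℕ) = 0 := by decide
  have n4 : (![1, 0, 0] : Fin 3 → ℕ) ≠ 0 := by decide
  rw [er, sumR1]
  simp only [rate_simp, n1, n2, n3, n4, if_true, if_false]
  fin_cases m <;>
  simp [A1, Matrix.mulVec, dotProduct, Fin.sum_univ_three] <;> ring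

lemma isDrift_of (i : Fin 2) (A : Matrix (Fin 3) (Fin 3) ℝ)
    (h : ∀ (x : Fin 3 → ℕ) (m : Fin 3),
      (∑ r ∈ M0.reac i, M0.rate i r x * ((r.2 m : ℝ) - r.1 m))
      - A.mulVec (fun l => (x l : ℝ)) m = if m = 0 then 1 else 0) : M0.IsDriftMatrix i A := by
  intro m ε hε
  obtain ⟨K, hK⟩ := exists_nat_gt (1 / ε)
  refine ⟨K, fun x hx => ?_⟩
  rw [h]
  have h1 : (K : ℝ) ≤ ((∑ l, x l : ℕ) : ℝ) := by exact_mod_cast hx
  have h2 : 1 ≤ ε * ((∑ l, x l : ℕ) : ℝ) := by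
    rw [div_lt_iff₀ hε] at hK
    nlinarith
  split_ifs
  · rw [abs_one]; exact h2
  · rw [abs_zero]; linarith

/-- one-step reachability -/
abbrev Reach (κ : ℝ) : State 2 3 → State 2 3 → Prop :=
  Relation.ReflTransGen (fun a b => M0.flow κ a {b} ≠ 0)

lemma reach_switch (κ : ℝ) (hκ : 0 < κ) (x : Fin 3 → ℕ) (i j : Fin 2) :
    Reach κ (x, i) (x, j) := by
  by_cases h : j = i
  · rw [h]
  · exact Relation.ReflTransGen.single (M0.step_switch κ (x, i) j h (by simp [M0, hκ]))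

lemma reach_reac (κ : ℝ) (x y : Fin 3 → ℕ) (i : Fin 2) (r : (Fin 3 → ℕ) × (Fin 3 → ℕ))
    (hr : r ∈ M0.reac i) (hx : ∀ m, r.1 m ≤ x m) (hy : ∀ m, y m = x m + r.2 m - r.1 m) :
    Reach κ (x, i) (y, i) := by
  refine Relation.ReflTransGen.single (M0.step_reac κ (x, i) r hr ?_ (y, i) ?_)
  · unfold Model.rate
    refine mul_pos (M0_valid.c_pos i r hr) (Finset.prod_pos fun m _ =>
      Finset.prod_pos fun j hj => ?_)
    rw [Finset.mem_range] at hj
    have h1 : j < x m := lt_of_lt_of_le hj (hx m)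
    have h2 : (j : ℝ) < (x m : ℝ) := by exact_mod_cast h1
    show 0 < (x m : ℝ) - j
    linarith
  · have : y = fun m => x m + r.2 m - r.1 m := funext hy
    rw [this]

lemma mem00 : ((![1, 0, 0], ![0, 1, 0]) : (Fin 3 → ℕ) × (Fin 3 → ℕ)) ∈ M0.reac 0 := by
  show _ ∈ R0
  decide

lemma mem01 : ((![0, 0, 1], ![0, 0, 0]) : (Fin 3 → ℕ) × (Fin 3 → ℕ)) ∈ M0.reac 0 := by
  show _ ∈ R0
  decide

lemma mem02 : ((![0, 0, 0], ![1, 0, 0]) : (Fin 3 → ℕ) × (Fin 3 → ℕ)) ∈ M0.reac 0 := by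
  show _ ∈ R0
  decide

lemma mem10 : ((![1, 0, 0], ![0, 0, 1]) : (Fin 3 → ℕ) × (Fin 3 → ℕ)) ∈ M0.reac 1 := by
  show _ ∈ R1
  decide

lemma mem11 : ((![0, 1, 0], ![0, 0, 0]) : (Fin 3 → ℕ) × (Fin 3 → ℕ)) ∈ M0.reac 1 := by
  show _ ∈ R1
  decide

lemma mem12 : ((![0, 0, 0], ![1, 0, 0]) : (Fin 3 → ℕ) × (Fin 3 → ℕ)) ∈ M0.reac 1 := by
  show _ ∈ R1
  decide

/-- everything can die out -/
lemma reach_down (κ : ℝ) (hκ : 0 < κ) (a b c : ℕ) : Reach κ (![a, b, c], 1) (![0, 0, 0], 0) := by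
  have h1 : ∀ b a c : ℕ, Reach κ (![a, b, c], 1) (![a, 0, c], 1) := by
    intro b
    induction b with
    | zero => intro a c; exact Relation.ReflTransGen.refl
    | succ b ih =>
      intro a c
      refine Relation.ReflTransGen.trans (b := (![a, b, c], 1)) ?_ (ih a c)
      refine reach_reac κ _ _ 1 _ mem11 (fun m => ?_) (fun m => ?_)
      · fin_cases m <;> simp
      · fin_cases m <;> simp
  have h2 : ∀ a c : ℕ, Reach κ (![a, 0, c], 1) (![0, 0, a + c], 1) := by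
    intro a
    induction a with
    | zero => intro c; rw [zero_add]
    | succ a ih =>
      intro c
      have e : a + 1 + c = a + (c + 1) := by ring
      rw [e]
      refine Relation.ReflTransGen.trans (b := (![a, 0, c + 1], 1)) ?_ (ih (c + 1))
      refine reach_reac κ _ _ 1 _ mem10 (fun m => ?_) (fun m => ?_)
      · fin_cases m <;> simp
      · fin_cases m <;> simp
  have h3 : ∀ c : ℕ, Reach κ (![0, 0, c], 0) (![0, 0, 0], 0) := by
    intro c
    induction c with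
    | zero => exact Relation.ReflTransGen.refl
    | succ c ih =>
      refine Relation.ReflTransGen.trans (b := (![0, 0, c], 0)) ?_ ih
      refine reach_reac κ _ _ 0 _ mem01 (fun m => ?_) (fun m => ?_)
      · fin_cases m <;> simp
      · fin_cases m <;> simp
  exact ((h1 b a c).trans (h2 a c)).trans ((reach_switch κ hκ _ 1 0).trans (h3 _))

/-- every state can be reached from the empty state -/
lemma reach_up (κ : ℝ) (hκ : 0 < κ) (a b c : ℕ) : Reach κ (![0, 0, 0], 0) (![a, b, c], 1) := by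
  have h1 : ∀ b : ℕ, Reach κ (![0, 0, 0], 0) (![0, b, 0], 0) := by
    intro b
    induction b with
    | zero => exact Relation.ReflTransGen.refl
    | succ b ih =>
      refine ih.trans ?_
      refine Relation.ReflTransGen.trans (b := (![1, b, 0], 0)) ?_ ?_
      · refine reach_reac κ _ _ 0 _ mem02 (fun m => ?_) (fun m => ?_)
        · fin_cases m <;> simp
        · fin_cases m <;> simp
      · refine reach_reac κ _ _ 0 _ mem00 (fun m => ?_) (fun m => ?_)
        · fin_cases m <;> simp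
        · fin_cases m <;> simp
  have h2 : ∀ c : ℕ, Reach κ (![0, b, 0], 1) (![0, b, c], 1) := by
    intro c
    induction c with
    | zero => exact Relation.ReflTransGen.refl
    | succ c ih =>
      refine ih.trans ?_
      refine Relation.ReflTransGen.trans (b := (![1, b, c], 1)) ?_ ?_
      · refine reach_reac κ _ _ 1 _ mem12 (fun m => ?_) (fun m => ?_)
        · fin_cases m <;> simp
        · fin_cases m <;> simp
      · refine reach_reac κ _ _ 1 _ mem10 (fun m => ?_) (fun m => ?_)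
        · fin_cases m <;> simp
        · fin_cases m <;> simp
  have h3 : ∀ a : ℕ, Reach κ (![0, b, c], 1) (![a, b, c], 1) := by
    intro a
    induction a with
    | zero => exact Relation.ReflTransGen.refl
    | succ a ih =>
      refine ih.trans ?_
      refine reach_reac κ _ _ 1 _ mem12 (fun m => ?_) (fun m => ?_)
      · fin_cases m <;> simp
      · fin_cases m <;> simp
  exact ((h1 b).trans (reach_switch κ hκ _ 0 1)).trans ((h2 c).trans (h3 a))

lemma irreducible (κ : ℝ) (hκ : 0 < κ) : M0.Irreducible κ := by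
  rintro ⟨x, i⟩ ⟨y, j⟩
  have hx : x = ![x 0, x 1, x 2] := by
    funext m; fin_cases m <;> rfl
  have hy : y = ![y 0, y 1, y 2] := by
    funext m; fin_cases m <;> rfl
  have h1 : Reach κ (x, 1) (![0, 0, 0], 0) := by
    have := reach_down κ hκ (x 0) (x 1) (x 2)
    rwa [← hx] at this
  have h2 : Reach κ (![0, 0, 0], 0) (y, 1) := by
    have := reach_up κ hκ (y 0) (y 1) (y 2)
    rwa [← hy] at this
  exact ((reach_switch κ hκ x i 1).trans h1).trans (h2.trans (reach_switch κ hκ y 1 j))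

/-- Q1 fails: there are two monomolecular networks on three species, vectors `v^i ≥ 0` with
`(v^i M_i)_m > 0` on the support of `v^i` and with intersecting supports, for which, for every
`κ ∈ (0,1]`, the mixed process is irreducible and no state is evanescent. -/
theorem result : ∃ (M : Model 2 3) (A : Fin 2 → Matrix (Fin 3) (Fin 3) ℝ)
    (v : Fin 2 → Fin 3 → ℝ), M.Valid ∧ (∀ i, M.IsDriftMatrix i (A i)) ∧
      (∀ i m, 0 ≤ v i m) ∧ (∀ i m, v i m ≠ 0 → 0 < Matrix.vecMul (v i) (A i) m) ∧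
      (∃ m, ∀ i, v i m ≠ 0) ∧
      ∀ κ : ℝ, 0 < κ → κ ≤ 1 → M.Irreducible κ ∧ ∀ z, ¬ M.Evanescent κ z := by
  refine ⟨M0, ![A0, A1], ![![1, 2, 0], ![1, 0, 2]], M0_valid, ?_, ?_, ?_, ⟨0, ?_⟩,
    fun κ h0 h1 => ⟨irreducible κ h0, never_evanescent κ h0 h1⟩⟩
  · intro i
    fin_cases i
    · exact isDrift_of 0 A0 drift0
    · exact isDrift_of 1 A1 drift1
  · intro i m
    fin_cases i <;> fin_cases m <;> simp
  · intro i m
    fin_cases i <;> fin_cases m <;>
    simp [A0, A1, Matrix.vecMul, dotProduct, Fin.sum_univ_three]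
  · intro i
    fin_cases i <;> simp

end Pool.Agent.Results.MP_adc20b_pr.SlowSwitchingNotEvanescent
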